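import Pool.Agent.Helper40.Nm.Goals

open Pool.Agent.Helper40.Nm

namespace Pool.Agent.Helper67.Nm

open Module

theorem mem_smul_top_iff {R M ι : Type*} [CommRing R] [AddCommGroup M] [Module R M] [Fintype ι]
    (b : Basis ι R M) (J : Ideal R) (x : M) :
    x ∈ (J • ⊤ : Submodule R M) ↔ ∀ i, b.repr x i ∈ J := by
  constructor
  · intro h
    refine Submodule.smul_induction_on (p := fun x => ∀ i, b.repr x i ∈ J) h ?_ ?_
    · intro r hr n _ i
      rw [map_smul, Finsupp.smul_apply, smul_eq_mul]
      exact J.mul_mem_right _ hr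
    · intro x y hx hy i
      rw [map_add, Finsupp.add_apply]
      exact J.add_mem (hx i) (hy i)
  · intro h
    rw [← b.sum_repr x]
    exact Submodule.sum_mem _ fun i _ => Submodule.smul_mem_smul (h i) Submodule.mem_top

theorem complete_of_basis {R M ι : Type*} [CommRing R] [AddCommGroup M] [Module R M] [Fintype ι]
    (b : Basis ι R M) (I : Ideal R) [IsAdicComplete I R] : IsAdicComplete I M := by
  have hI : ∀ n : ℕ, (I ^ n • ⊤ : Submodule R R) = I ^ n := fun n => by
    rw [smul_eq_mul, Ideal.mul_top]
  have hH : IsHausdorff I M := by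
    refine ⟨fun x hx => ?_⟩
    have h1 : ∀ i, b.repr x i = 0 := by
      intro i
      refine IsHausdorff.haus (I := I) inferInstance _ fun n => ?_
      have h2 := hx n
      rw [SModEq.zero] at h2 ⊢
      rw [hI]
      exact (mem_smul_top_iff b _ x).mp h2 i
    have h2 : b.repr x = 0 := by
      ext i
      exact h1 i
    exact b.repr.map_eq_zero_iff.mp h2
  have hP : IsPrecomplete I M := by
    refine ⟨fun f hf => ?_⟩
    have h1 : ∀ i, ∃ L : R, ∀ n, b.repr (f n) i ≡ L [SMOD (I ^ n • ⊤ : Submodule R R)] := by
      intro i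
      refine IsPrecomplete.prec (I := I) inferInstance fun {m n} hmn => ?_
      have h2 := hf hmn
      rw [SModEq.sub_mem] at h2 ⊢
      rw [hI]
      have h3 := (mem_smul_top_iff b _ _).mp h2 i
      rw [map_sub, Finsupp.sub_apply] at h3
      exact h3
    choose L hL using h1
    refine ⟨∑ i, L i • b i, fun n => ?_⟩
    rw [SModEq.sub_mem, mem_smul_top_iff b]
    intro i
    have h2 := hL i n
    rw [SModEq.sub_mem, hI] at h2
    rw [map_sub, Finsupp.sub_apply]
    have h3 : b.repr (∑ i, L i • b i) i = L i := by
      rw [b.repr_sum_self]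
    rw [h3]
    exact h2
  exact { toIsHausdorff := hH, toIsPrecomplete := hP }

theorem idem_lift {S : Type*} [CommRing S] [IsDomain S] (I : Ideal S) [IsAdicComplete I S]
    (e : S ⧸ I) (he : e * e = e) : e = 0 ∨ e = 1 := by
  obtain ⟨a₀, rfl⟩ := Ideal.Quotient.mk_surjective e
  have h0 : a₀ * a₀ - a₀ ∈ I := by
    rw [← Ideal.Quotient.eq_zero_iff_mem, map_sub, map_mul, he, sub_self]
  have h1 := (IsAdicComplete.henselianRing S I).is_henselian
    (Polynomial.X ^ 2 - Polynomial.X : Polynomial S) (by
      apply Polynomial.monic_X_pow_sub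
      rw [Polynomial.degree_X]
      decide) a₀ (by
      simp only [Polynomial.eval_sub, Polynomial.eval_pow, Polynomial.eval_X]
      rw [pow_two]; exact h0) (by
      have h2 : Polynomial.eval a₀ (Polynomial.derivative
          (Polynomial.X ^ 2 - Polynomial.X : Polynomial S)) = 2 * a₀ - 1 := by
        simp
        exact Or.inl one_add_one_eq_two
      rw [h2]
      refine IsUnit.of_mul_eq_one (Ideal.Quotient.mk I (2 * a₀ - 1)) ?_
      rw [← map_mul, ← map_one (Ideal.Quotient.mk I), Ideal.Quotient.eq]
      have h3 : (2 * a₀ - 1) * (2 * a₀ - 1) - 1 = 4 * (a₀ * a₀ - a₀) := by ring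
      rw [h3]
      exact I.mul_mem_left _ h0)
  obtain ⟨a, ha, ha'⟩ := h1
  have h4 : a * a = a := by
    have := ha
    simp only [Polynomial.IsRoot, Polynomial.eval_sub, Polynomial.eval_pow,
      Polynomial.eval_X] at this
    rw [pow_two] at this
    exact sub_eq_zero.mp this
  have h5 : (Ideal.Quotient.mk I a) = Ideal.Quotient.mk I a₀ := by
    rw [Ideal.Quotient.eq]; exact ha'
  rcases eq_or_ne a 0 with h | h
  · left
    rw [← h5, h, map_zero]
  · right
    have h6 : a = 1 := mul_left_cancel₀ h (by rw [h4, mul_one])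
    rw [← h5, h6, map_one]

theorem local_of_complete {S : Type*} [CommRing S] [IsDomain S] (I : Ideal S)
    [IsAdicComplete I S] [IsArtinianRing (S ⧸ I)] : IsLocalRing S := by
  refine IsLocalRing.of_isUnit_or_isUnit_one_sub_self fun s => ?_
  have hloc := isLocalHom_of_le_jacobson_bot I (IsAdicComplete.le_jacobson_bot I)
  set x := Ideal.Quotient.mk I s with hx
  obtain ⟨n, y, hy⟩ := IsArtinian.exists_pow_succ_smul_dvd x (1 : S ⧸ I)
  simp only [smul_eq_mul, mul_one] at hy
  have h1 : ∀ j : ℕ, x ^ (n + j) * y ^ j = x ^ n := by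
    intro j
    induction j with
    | zero => simp
    | succ j ih =>
      calc x ^ (n + (j + 1)) * y ^ (j + 1) = x ^ j * (x ^ n.succ * y) * y ^ j := by
            rw [Nat.succ_eq_add_one]; ring
        _ = x ^ (n + j) * y ^ j := by rw [hy]; ring
        _ = x ^ n := ih
  have h2 : (x ^ n * y ^ n) * (x ^ n * y ^ n) = x ^ n * y ^ n := by
    calc (x ^ n * y ^ n) * (x ^ n * y ^ n) = (x ^ (n + n) * y ^ n) * y ^ n := by ring
      _ = x ^ n * y ^ n := by rw [h1 n]
  rcases idem_lift I _ h2 with h | h
  · right
    have h3 : x ^ n = 0 := by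
      calc x ^ n = x ^ (n + n) * y ^ n := (h1 n).symm
        _ = x ^ n * (x ^ n * y ^ n) := by ring
        _ = 0 := by rw [h, mul_zero]
    have h4 : IsUnit (1 - x) := IsNilpotent.isUnit_one_sub ⟨n, h3⟩
    apply IsUnit.of_map (Ideal.Quotient.mk I)
    rw [map_sub, map_one]
    exact h4
  · left
    apply IsUnit.of_map (Ideal.Quotient.mk I)
    rw [← hx]
    rcases n with _ | n
    · simp only [Nat.succ_eq_add_one, zero_add, pow_one, pow_zero] at hy
      exact IsUnit.of_mul_eq_one _ hy
    · refine IsUnit.of_mul_eq_one (x ^ n * y ^ (n + 1)) ?_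
      rw [← h]; ring

theorem ext1 : EXT1 := by
  intro R M S E _ _ _ _ _ _ _ _ _ _ _ _ _ _ _ _ _ _ _
  have hF : IsFractionRing S E := IsIntegralClosure.isFractionRing_of_finite_extension R M E S
  have hfin : Module.Finite R S := IsIntegralClosure.finite R M E S
  have hint : Algebra.IsIntegral R S := IsIntegralClosure.isIntegral_algebra R E
  have hinjRE : Function.Injective (algebraMap R E) := by
    rw [IsScalarTower.algebraMap_eq R M E]
    exact (algebraMap M E).injective.comp (IsFractionRing.injective R M)
  have hinj : Function.Injective (algebraMap R S) := by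
    have h1 : (algebraMap R E) = (algebraMap S E).comp (algebraMap R S) :=
      IsScalarTower.algebraMap_eq R S E
    rw [h1] at hinjRE
    exact Function.Injective.of_comp hinjRE
  have hfs : FaithfulSMul R S := (faithfulSMul_iff_algebraMap_injective R S).mpr hinj
  have htf : Module.IsTorsionFree R S := inferInstance
  have hfree : Module.Free R S := inferInstance
  have hD : IsDedekindDomain S := IsIntegralClosure.isDedekindDomain R M E S
  refine ⟨hF, hfin, hfree, ?_⟩
  have hc : IsAdicComplete (IsLocalRing.maximalIdeal R) S :=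
    complete_of_basis (Module.Free.chooseBasis R S) _
  have hc' : IsAdicComplete ((IsLocalRing.maximalIdeal R).map (algebraMap R S)) S :=
    { toIsHausdorff := IsHausdorff.map_algebraMap_iff.mpr hc.toIsHausdorff
      toIsPrecomplete := IsPrecomplete.map_algebraMap_iff.mpr hc.toIsPrecomplete }
  have hA : IsArtinianRing (S ⧸ (IsLocalRing.maximalIdeal R).map (algebraMap R S)) := by
    let : Field (R ⧸ IsLocalRing.maximalIdeal R) := Ideal.Quotient.field _
    have h2 : Module.Finite R (S ⧸ (IsLocalRing.maximalIdeal R).map (algebraMap R S)) :=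
      inferInstance
    have h3 : Module.Finite (R ⧸ IsLocalRing.maximalIdeal R)
        (S ⧸ (IsLocalRing.maximalIdeal R).map (algebraMap R S)) :=
      Module.Finite.of_restrictScalars_finite R _ _
    exact isArtinian_of_tower (R ⧸ IsLocalRing.maximalIdeal R) inferInstance
  have hL : IsLocalRing S := local_of_complete ((IsLocalRing.maximalIdeal R).map (algebraMap R S))
  have hnf : ¬ IsField S := by
    intro h
    have := isField_of_isIntegral_of_isField hinj h
    exact IsDiscreteValuationRing.not_isField R this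
  exact ((IsDiscreteValuationRing.TFAE S hnf).out 0 2).mpr hD

end Pool.Agent.Helper67.Nm
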